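import Pool.Agent.Helper26_S1S3.Chains

/-!
# MP_8e71ea_gt, module MV1: the concrete chain complex computes Mathlib's singular homology
-/

set_option autoImplicit false
set_option linter.unusedSectionVars false

open scoped Manifold ContDiff Topology Simplicial
open CategoryTheory Set Opposite Limits

noncomputable section

namespace Pool.Agent.S1S3

/-- morphisms out of a free module -/
def liftM {ι : Type} {M : ModuleCat.{0} ℤ} (g : ι → (ModuleCat.of ℤ ℤ ⟶ M)) :
    ModuleCat.of ℤ (ι →₀ ℤ) ⟶ M :=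
  ModuleCat.ofHom (Finsupp.linearCombination ℤ fun i => (g i).hom (1 : ℤ))

theorem liftM_single {ι : Type} {M : ModuleCat.{0} ℤ} (g : ι → (ModuleCat.of ℤ ℤ ⟶ M)) (i : ι)
    (a : ℤ) : (liftM g).hom (Finsupp.single i a) = (g i).hom a := by
  show Finsupp.linearCombination ℤ (fun i => (g i).hom (1 : ℤ)) (Finsupp.single i a) = _
  rw [Finsupp.linearCombination_single]
  have h := (g i).hom.map_smul a (1 : ℤ)
  rw [smul_eq_mul, mul_one] at h
  exact h.symm

theorem zsmul_hom_apply {M : ModuleCat.{0} ℤ} (g : ModuleCat.of ℤ ℤ ⟶ M) (k a : ℤ) :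
    (k • g).hom a = g.hom (k * a) := by
  have h1 : (k • g).hom a = k • (g.hom a) := rfl
  have h2 : g.hom (k * a) = k • (g.hom a) := by
    have := map_zsmul g.hom k (a : ℤ)
    rw [smul_eq_mul] at this
    exact this
  rw [h1, h2]

theorem hom_ext_single {ι : Type} {M : ModuleCat.{0} ℤ} {f g : ModuleCat.of ℤ (ι →₀ ℤ) ⟶ M}
    (h : ∀ (i : ι) (a : ℤ), f.hom (Finsupp.single i a) = g.hom (Finsupp.single i a)) : f = g := by
  apply ModuleCat.hom_ext
  apply Finsupp.lhom_ext
  exact h

section theta
variable {X Y : Type} [TopologicalSpace X] [TopologicalSpace Y]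

/-- the singular chain complex of Mathlib -/
abbrev Kc (X : Type) [TopologicalSpace X] : ChainComplex (ModuleCat.{0} ℤ) ℕ :=
  (TopCat.toSSet.obj (TopCat.of X)).chainComplex (ModuleCat.of ℤ ℤ)

/-- the simplex of the singular simplicial set -/
def sxe (n : ℕ) : Sx n X ≃ (TopCat.toSSet.obj (TopCat.of X)) _⦋n⦌ :=
  (TopCat.toSSetObjEquiv (TopCat.of X) (op ⦋n⦌)).symm

/-- comparison of the chains -/
def theta (n : ℕ) (X : Type) [TopologicalSpace X] : ModuleCat.of ℤ (Ch n X) ⟶ (Kc X).X n :=
  liftM fun σ : Sx n X =>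
    (TopCat.toSSet.obj (TopCat.of X)).ιChainComplex (R := ModuleCat.of ℤ ℤ) (sxe n σ)

theorem theta_single (n : ℕ) (σ : Sx n X) (a : ℤ) :
    (theta n X).hom (Finsupp.single σ a) =
      ((TopCat.toSSet.obj (TopCat.of X)).ιChainComplex (R := ModuleCat.of ℤ ℤ) (sxe n σ)).hom a := by
  unfold theta
  rw [liftM_single]

def thetaInv (n : ℕ) (X : Type) [TopologicalSpace X] : (Kc X).X n ⟶ ModuleCat.of ℤ (Ch n X) :=
  Cofan.IsColimit.desc ((TopCat.toSSet.obj (TopCat.of X)).isColimitChainComplexXCofan
    (ModuleCat.of ℤ ℤ) n) (fun x => ModuleCat.ofHom (Finsupp.lsingle ((sxe n).symm x)))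

theorem ι_thetaInv (n : ℕ) (x : (TopCat.toSSet.obj (TopCat.of X)) _⦋n⦌) :
    (TopCat.toSSet.obj (TopCat.of X)).ιChainComplex (R := ModuleCat.of ℤ ℤ) x ≫ thetaInv n X =
      ModuleCat.ofHom (Finsupp.lsingle ((sxe n).symm x)) :=
  Cofan.IsColimit.fac ((TopCat.toSSet.obj (TopCat.of X)).isColimitChainComplexXCofan
    (ModuleCat.of ℤ ℤ) n) _ _

theorem thetaInv_theta (n : ℕ) : thetaInv n X ≫ theta n X = 𝟙 _ := by
  apply SSet.chainComplex_hom_ext
  intro x
  rw [← Category.assoc, ι_thetaInv, Category.comp_id]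
  ext
  show (theta n X).hom (Finsupp.single ((sxe n).symm x) 1) = _
  rw [theta_single, Equiv.apply_symm_apply]

theorem theta_thetaInv (n : ℕ) : theta n X ≫ thetaInv n X = 𝟙 _ := by
  apply hom_ext_single
  intro σ a
  show (thetaInv n X).hom ((theta n X).hom (Finsupp.single σ a)) = Finsupp.single σ a
  rw [theta_single]
  have h := ι_thetaInv n (sxe n σ)
  rw [Equiv.symm_apply_apply] at h
  have h2 := congrArg (fun f => f.hom a) h
  exact h2

theorem sxe_face (n : ℕ) (i : Fin (n + 2)) (σ : Sx (n + 1) X) :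
    (TopCat.toSSet.obj (TopCat.of X)).δ i (sxe (n + 1) σ) = sxe n (σ.comp (faceC n i)) := by
  apply (sxe n).symm.injective
  rw [Equiv.symm_apply_apply]
  rfl

theorem sxe_map (n : ℕ) (f : C(X, Y)) (σ : Sx n X) :
    (TopCat.toSSet.map (TopCat.ofHom f)).app (op ⦋n⦌) (sxe n σ) = sxe n (f.comp σ) := by
  apply (sxe n).symm.injective
  rw [Equiv.symm_apply_apply]
  rfl

theorem theta_bd (n : ℕ) (c : Ch (n + 1) X) :
    ((Kc X).d (n + 1) n).hom ((theta (n + 1) X).hom c) = (theta n X).hom (bd n c) := by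
  induction c using Finsupp.induction_linear with
  | zero => simp
  | add c d hc hd => simp only [map_add, hc, hd]
  | single σ a =>
    rw [theta_single, bd_single, map_sum]
    have h := (TopCat.toSSet.obj (TopCat.of X)).ιChainComplex_d (R := ModuleCat.of ℤ ℤ)
      (sxe (n + 1) σ)
    have h2 := congrArg (fun f => f.hom a) h
    simp only [sxe_face] at h2
    refine h2.trans ?_
    rw [ModuleCat.hom_sum, LinearMap.sum_apply]
    refine Finset.sum_congr rfl fun i _ => ?_
    erw [theta_single]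
    exact zsmul_hom_apply _ _ _

theorem theta_push (n : ℕ) (f : C(X, Y)) (c : Ch n X) :
    ((SSet.chainComplexMap (TopCat.toSSet.map (TopCat.ofHom f)) (ModuleCat.of ℤ ℤ)).f n).hom
      ((theta n X).hom c) = (theta n Y).hom (push n f c) := by
  induction c using Finsupp.induction_linear with
  | zero => simp
  | add c d hc hd => simp only [map_add, hc, hd]
  | single σ a =>
    rw [theta_single, push_single, theta_single]
    have h := SSet.ι_chainComplexMap_f (TopCat.toSSet.obj (TopCat.of X))
      (TopCat.toSSet.obj (TopCat.of Y)) (TopCat.toSSet.map (TopCat.ofHom f))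
      (ModuleCat.of ℤ ℤ) (sxe n σ)
    have h2 := congrArg (fun f => f.hom a) h
    rw [sxe_map] at h2
    exact h2

theorem theta_injective (n : ℕ) : Function.Injective (theta n X).hom := by
  intro c d h
  have h1 := congrArg (thetaInv n X).hom h
  have h2 : ∀ c, (thetaInv n X).hom ((theta n X).hom c) = c := fun c =>
    congrArg (fun f => f.hom c) (theta_thetaInv (X := X) n)
  rw [h2, h2] at h1
  exact h1

theorem theta_surjective (n : ℕ) : Function.Surjective (theta n X).hom := by
  intro z
  exact ⟨(thetaInv n X).hom z, congrArg (fun f => f.hom z) (thetaInv_theta (X := X) n)⟩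

end theta

section homology

/-- exactness of chains → cycles → homology -/
theorem hom_exact (K : ChainComplex (ModuleCat.{0} ℤ) ℕ) (n : ℕ) (w : K.cycles n) :
    (K.homologyπ n).hom w = 0 ↔ ∃ y : K.X (n + 1), (K.d (n + 1) n).hom y = (K.iCycles n).hom w := by
  have hex : (ShortComplex.mk (K.toCycles (n + 1) n) (K.homologyπ n)
      (K.toCycles_comp_homologyπ (n + 1) n)).Exact :=
    ShortComplex.exact_of_g_is_cokernel _ (K.homologyIsCokernel (n + 1) n (by simp))
  rw [ShortComplex.moduleCat_exact_iff] at hex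
  have hd : ∀ y, (K.iCycles n).hom ((K.toCycles (n + 1) n).hom y) = (K.d (n + 1) n).hom y :=
    fun y => congrArg (fun f => f.hom y) (K.toCycles_i (n + 1) n)
  constructor
  · intro h
    obtain ⟨y, hy⟩ := hex w h
    refine ⟨y, ?_⟩
    rw [← hd]
    exact congrArg _ hy
  · rintro ⟨y, hy⟩
    have hinj : Function.Injective (K.iCycles n).hom :=
      (ModuleCat.mono_iff_injective _).1 inferInstance
    have : (K.toCycles (n + 1) n).hom y = w := by
      apply hinj
      rw [hd, hy]
    rw [← this]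
    exact congrArg (fun f => f.hom y) (K.toCycles_comp_homologyπ (n + 1) n)

theorem iCycles_injective (K : ChainComplex (ModuleCat.{0} ℤ) ℕ) (n : ℕ) :
    Function.Injective (K.iCycles n).hom :=
  (ModuleCat.mono_iff_injective _).1 inferInstance

theorem homologyπ_surjective (K : ChainComplex (ModuleCat.{0} ℤ) ℕ) (n : ℕ) :
    Function.Surjective (K.homologyπ n).hom :=
  (ModuleCat.epi_iff_surjective _).1 inferInstance

end homology

section cls
variable {X Y : Type} [TopologicalSpace X] [TopologicalSpace Y]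

/-- cycles as a map into Mathlib's chains -/
def cycMap (n : ℕ) (X : Type) [TopologicalSpace X] : ModuleCat.of ℤ (Cyc n X) ⟶ (Kc X).X n :=
  ModuleCat.ofHom ((Cyc n X).subtype.toIntLinearMap) ≫ theta n X

theorem cycMap_apply (n : ℕ) (c : Cyc n X) :
    (cycMap n X).hom c = (theta n X).hom (c : Ch n X) := rfl

theorem cycMap_d (n : ℕ) : cycMap n X ≫ (Kc X).d n ((ComplexShape.down ℕ).next n) = 0 := by
  cases n with
  | zero =>
    rw [(Kc X).shape, comp_zero]
    simp
  | succ n =>
    rw [ChainComplex.next_nat_succ]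
    apply ModuleCat.hom_ext
    ext c
    show ((Kc X).d (n + 1) n).hom ((theta (n + 1) X).hom (c : Ch (n + 1) X)) = 0
    have hc : bd n (c : Ch (n + 1) X) = 0 := c.2
    rw [theta_bd, hc, map_zero]

/-- the class of a cycle, categorical form -/
def clsM (n : ℕ) (X : Type) [TopologicalSpace X] : ModuleCat.of ℤ (Cyc n X) ⟶ (Kc X).cycles n :=
  (Kc X).liftCycles (cycMap n X) _ rfl (cycMap_d n)

theorem i_clsM (n : ℕ) (c : Cyc n X) :
    ((Kc X).iCycles n).hom ((clsM n X).hom c) = (theta n X).hom (c : Ch n X) :=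
  congrArg (fun f => f.hom c) ((Kc X).liftCycles_i (cycMap n X) _ rfl (cycMap_d n))

/-- the class of a cycle -/
def clsH (n : ℕ) (X : Type) [TopologicalSpace X] : Cyc n X →+ HH n X :=
  (clsM n X ≫ (Kc X).homologyπ n).hom.toAddMonoidHom

theorem mv1 : MV1Statement := by
  refine ⟨clsH, ?_, ?_, ?_⟩
  · intro n X _ x
    obtain ⟨w, hw⟩ := homologyπ_surjective (Kc X) n x
    obtain ⟨c, hc⟩ := theta_surjective n (((Kc X).iCycles n).hom w)
    have hcc : c ∈ Cyc n X := by
      cases n with
      | zero => exact AddSubgroup.mem_top _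
      | succ n =>
        show bd n c = 0
        apply theta_injective n
        rw [← theta_bd, map_zero]
        erw [hc]
        exact congrArg (fun f => f.hom w) ((Kc X).iCycles_d (n + 1) n)
    refine ⟨⟨c, hcc⟩, ?_⟩
    have : (clsM n X).hom ⟨c, hcc⟩ = w := by
      apply iCycles_injective
      rw [i_clsM]
      exact hc
    show ((Kc X).homologyπ n).hom ((clsM n X).hom ⟨c, hcc⟩) = x
    rw [this]
    exact hw
  · intro n X _ c
    show ((Kc X).homologyπ n).hom ((clsM n X).hom c) = 0 ↔ _
    rw [hom_exact]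
    constructor
    · rintro ⟨y, hy⟩
      obtain ⟨e, rfl⟩ := theta_surjective (n + 1) y
      refine ⟨e, ?_⟩
      apply theta_injective n
      rw [← theta_bd, hy, i_clsM]
    · rintro ⟨e, he⟩
      refine ⟨(theta (n + 1) X).hom e, ?_⟩
      rw [theta_bd, he, i_clsM]
  · intro n X Y _ _ f c
    show ((HomologicalComplex.homologyMap (SSet.chainComplexMap
      (TopCat.toSSet.map (TopCat.ofHom f)) (ModuleCat.of ℤ ℤ)) n).hom
        (((Kc X).homologyπ n).hom ((clsM n X).hom c))) = 
      ((Kc Y).homologyπ n).hom ((clsM n Y).hom ⟨push n f c, _⟩)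
    have h1 := congrArg (fun f => f.hom ((clsM n X).hom c)) (HomologicalComplex.homologyπ_naturality
      (SSet.chainComplexMap (TopCat.toSSet.map (TopCat.ofHom f)) (ModuleCat.of ℤ ℤ)) n)
    refine h1.trans ?_
    show ((Kc Y).homologyπ n).hom _ = ((Kc Y).homologyπ n).hom _
    congr 1
    apply iCycles_injective
    rw [i_clsM]
    have h2 := congrArg (fun f => f.hom ((clsM n X).hom c)) (HomologicalComplex.cyclesMap_i
      (SSet.chainComplexMap (TopCat.toSSet.map (TopCat.ofHom f)) (ModuleCat.of ℤ ℤ)) n)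
    refine h2.trans ?_
    show ((SSet.chainComplexMap (TopCat.toSSet.map (TopCat.ofHom f)) (ModuleCat.of ℤ ℤ)).f n).hom
      (((Kc X).iCycles n).hom ((clsM n X).hom c)) = _
    rw [i_clsM, theta_push]

end cls

end Pool.Agent.S1S3
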