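import Pool.Agent.Helper26_S1S3.Chains

/-!
# MP_8e71ea_gt, module MV3: the Mayer–Vietoris sequence from the small simplices theorem
-/

set_option autoImplicit false
set_option linter.unusedSectionVars false

open scoped Manifold ContDiff Topology
open CategoryTheory Set

noncomputable section

namespace Pool.Agent.S1S3

section basics
variable {X Y : Type} [TopologicalSpace X] [TopologicalSpace Y]

theorem push_injective (n : ℕ) {f : C(X, Y)} (hf : Function.Injective f) :
    Function.Injective (push n f) := by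
  have h : Function.Injective (fun σ : Sx n X => f.comp σ) := by
    intro σ τ hστ
    ext x
    apply hf
    have := congrArg (fun g : C(stdSimplex ℝ (Fin (n + 1)), Y) => g x) hστ
    simpa using this
  exact Finsupp.mapDomain_injective h

theorem valC_injective (A : Set X) : Function.Injective (valC A) := Subtype.val_injective

theorem inclC_injective {A B : Set X} (h : A ⊆ B) : Function.Injective (inclC h) :=
  Set.inclusion_injective h

theorem valC_inclC {A B : Set X} (h : A ⊆ B) : (valC B).comp (inclC h) = valC A := rfl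

theorem push_val_incl (n : ℕ) {A B : Set X} (h : A ⊆ B) (c : Ch n A) :
    push n (valC B) (push n (inclC h) c) = push n (valC A) c := by
  rw [push_push, valC_inclC]

/-- a chain all of whose simplices lie in `A` comes from `A` -/
theorem exists_push_of_support (n : ℕ) (A : Set X) (z : Ch n X)
    (h : ∀ σ ∈ z.support, ∀ t, σ t ∈ A) : ∃ c : Ch n A, push n (valC A) c = z := by
  have key : ∀ σ ∈ z.support, Finsupp.single σ (z σ) ∈ (push n (valC A)).range := by
    intro σ hσ
    refine ⟨Finsupp.single ⟨fun t => ⟨σ t, h σ hσ t⟩, by fun_prop⟩ (z σ), ?_⟩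
    rw [push_single]
    rfl
  have : z ∈ (push n (valC A)).range := by
    rw [← Finsupp.sum_single z]
    exact AddSubgroup.sum_mem _ key
  exact this

theorem mem_of_push_support (n : ℕ) (A : Set X) (c : Ch n A) :
    ∀ σ ∈ (push n (valC A) c).support, ∀ t, σ t ∈ A := by
  classical
  intro σ hσ t
  have h := Finsupp.mapDomain_support (f := fun σ : Sx n A => (valC A).comp σ) (s := c) hσ
  obtain ⟨τ, _, rfl⟩ := Finset.mem_image.1 h
  exact (τ t).2

theorem exists_inter (n : ℕ) (A B : Set X) (a : Ch n A) (b : Ch n B)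
    (h : push n (valC A) a = push n (valC B) b) :
    ∃ c : Ch n ↥(A ∩ B), push n (inclC inter_subset_left) c = a ∧
      push n (inclC inter_subset_right) c = b := by
  obtain ⟨c, hc⟩ := exists_push_of_support n (A ∩ B) (push n (valC A) a) (fun σ hσ t =>
    ⟨mem_of_push_support n A a σ hσ t, mem_of_push_support n B b σ (h ▸ hσ) t⟩)
  refine ⟨c, ?_, ?_⟩
  · apply push_injective n (valC_injective A)
    rw [push_val_incl, hc]
  · apply push_injective n (valC_injective B)
    rw [push_val_incl, hc, h]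

theorem zero_small (A B : Set X) (hAB : A ∪ B = univ) (z : Ch 0 X) : SmallCh A B 0 z := by
  have key : ∀ σ : Sx 0 X, ∀ k : ℤ, SmallCh A B 0 (Finsupp.single σ k) := by
    intro σ k
    have hsub : ∀ s t : stdSimplex ℝ (Fin 1), s = t := fun s t => Subsingleton.elim s t
    let t0 : stdSimplex ℝ (Fin 1) := Classical.arbitrary _
    have ht0 : σ t0 ∈ A ∪ B := by rw [hAB]; trivial
    rcases ht0 with h | h
    · obtain ⟨a, ha⟩ := exists_push_of_support 0 A (Finsupp.single σ k) (by
        intro τ hτ t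
        have := Finsupp.support_single_subset hτ
        rw [Finset.mem_singleton.1 this, hsub t t0]; exact h)
      exact ⟨a, 0, by rw [ha, map_zero, add_zero]⟩
    · obtain ⟨b, hb⟩ := exists_push_of_support 0 B (Finsupp.single σ k) (by
        intro τ hτ t
        have := Finsupp.support_single_subset hτ
        rw [Finset.mem_singleton.1 this, hsub t t0]; exact h)
      exact ⟨0, b, by rw [hb, map_zero, zero_add]⟩
  induction z using Finsupp.induction_linear with
  | zero => exact ⟨0, 0, by simp⟩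
  | add c d hc hd =>
    obtain ⟨a, b, h⟩ := hc
    obtain ⟨a', b', h'⟩ := hd
    exact ⟨a + a', b + b', by rw [h, h', map_add, map_add]; abel⟩
  | single σ k => exact key σ k


theorem face_face (n : ℕ) (i j : Fin (n + 2)) (h : i ≤ j) :
    (faceC (n + 1) j.succ).comp (faceC n i) = (faceC (n + 1) i.castSucc).comp (faceC n j) := by
  ext1 t
  show stdSimplex.map j.succ.succAbove (stdSimplex.map i.succAbove t) =
    stdSimplex.map i.castSucc.succAbove (stdSimplex.map j.succAbove t)
  rw [stdSimplex.map_comp_apply, stdSimplex.map_comp_apply]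
  congr 1
  funext k
  show j.succ.succAbove (i.succAbove k) = i.castSucc.succAbove (j.succAbove k)
  ext
  dsimp [Fin.succAbove]
  rcases i with ⟨i, _⟩
  rcases j with ⟨j, _⟩
  rcases k with ⟨k, _⟩
  split_ifs <;> · simp at * <;> lia

/-- `d ∘ d = 0` -/
theorem bd_bd (n : ℕ) (c : Ch (n + 2) X) : bd n (bd (n + 1) c) = 0 := by
  induction c using Finsupp.induction_linear with
  | zero => simp
  | add c d hc hd => simp only [map_add, hc, hd, add_zero]
  | single σ a =>
    rw [bd_single, map_sum]
    simp only [bd_single]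
    rw [Finset.sum_comm, ← Finset.sum_product']
    let P := Fin (n + 2) × Fin (n + 3)
    let S : Finset P := {ij : P | (ij.2 : ℕ) ≤ (ij.1 : ℕ)}
    rw [Finset.univ_product_univ, ← Finset.sum_add_sum_compl S, ← eq_neg_iff_add_eq_zero,
      ← Finset.sum_neg_distrib]
    let φ : ∀ ij : P, ij ∈ S → P := fun ij hij =>
      (Fin.castLT ij.2 (lt_of_le_of_lt (Finset.mem_filter.mp hij).right (Fin.is_lt ij.1)),
        ij.1.succ)
    apply Finset.sum_bij φ
    · intro ij hij
      simp_rw [S, φ, Finset.compl_filter, Finset.mem_filter_univ, Fin.val_succ,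
        Fin.val_castLT] at hij ⊢
      lia
    · rintro ⟨i, j⟩ hij ⟨i', j'⟩ hij' h
      rw [Prod.mk_inj]
      exact ⟨by simpa [φ] using! congr_arg Prod.snd h,
        by simpa [φ, Fin.castSucc_castLT] using! congr_arg Fin.castSucc (congr_arg Prod.fst h)⟩
    · rintro ⟨i', j'⟩ hij'
      simp_rw [S, Finset.compl_filter, Finset.mem_filter_univ, not_le] at hij'
      refine ⟨(j'.pred <| ?_, Fin.castSucc i'), ?_, ?_⟩
      · rintro rfl
        simp only [Fin.val_zero, not_lt_zero] at hij'
      · simpa [S] using! Nat.le_sub_one_of_lt hij'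
      · simp only [φ, Fin.castLT_castSucc, Fin.succ_pred]
    · rintro ⟨i, j⟩ hij
      have hij' : (j : ℕ) ≤ (i : ℕ) := by simpa [S] using! hij
      have hj : j = (Fin.castLT j (lt_of_le_of_lt hij' (Fin.is_lt i))).castSucc := by simp
      have hff := face_face n (Fin.castLT j (lt_of_le_of_lt hij' (Fin.is_lt i))) i (by
        rw [Fin.le_def]; exact hij')
      rw [← hj] at hff
      dsimp only [φ]
      rw [ContinuousMap.comp_assoc, ContinuousMap.comp_assoc, hff, ← Finsupp.single_neg]
      congr 1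
      rw [Fin.val_succ, Fin.val_castLT, pow_succ]
      ring

theorem Bnd_le_Cyc (n : ℕ) {z : Ch n X} (h : z ∈ Bnd n X) : z ∈ Cyc n X := by
  cases n with
  | zero => exact AddSubgroup.mem_top _
  | succ n =>
    obtain ⟨w, rfl⟩ := h
    exact bd_bd n w

theorem bd_eq_zero {n : ℕ} {z : Ch (n + 1) X} (h : z ∈ Cyc (n + 1) X) : bd n z = 0 := h

theorem push_mem_Bnd {n : ℕ} (f : C(X, Y)) {c : Ch n X} (h : c ∈ Bnd n X) :
    push n f c ∈ Bnd n Y := by
  obtain ⟨w, rfl⟩ := h
  exact ⟨push (n + 1) f w, bd_push n f w⟩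

/-- injectivity of push reflects cycles -/
theorem mem_Cyc_of_push {n : ℕ} {f : C(X, Y)} (hf : Function.Injective f) {c : Ch n X}
    (h : push n f c ∈ Cyc n Y) : c ∈ Cyc n X := by
  cases n with
  | zero => exact AddSubgroup.mem_top _
  | succ n =>
    have h1 : bd n (push (n + 1) f c) = 0 := h
    rw [bd_push] at h1
    have h2 : bd n c = 0 := by
      apply push_injective n hf
      rw [h1, map_zero]
    exact h2

end basics

/-! ## The relation -/

section rel

variable (cls : ∀ (n : ℕ) (X : Type) [TopologicalSpace X], Cyc n X →+ HH n X)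
variable {X Y : Type} [TopologicalSpace X] [TopologicalSpace Y]

/-- `x ∈ H_(i+1)(X)` is the class of `a + b` and `y` is the class of `∂ a = - ∂ b` in `A ∩ B` -/
def Rel (A B : Set X) (i : ℕ) (x : HH (i + 1) X) (y : HH i ↥(A ∩ B)) : Prop :=
  ∃ (a : Ch (i + 1) A) (b : Ch (i + 1) B) (c : Ch i ↥(A ∩ B))
    (hz : push (i + 1) (valC A) a + push (i + 1) (valC B) b ∈ Cyc (i + 1) X)
    (hc : c ∈ Cyc i ↥(A ∩ B)),
    bd i a = push i (inclC inter_subset_left) c ∧ bd i b = -push i (inclC inter_subset_right) c ∧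
    cls (i + 1) X ⟨_, hz⟩ = x ∧ cls i _ ⟨c, hc⟩ = y

variable {cls}

theorem Rel.add {A B : Set X} {i : ℕ} {x x' : HH (i + 1) X} {y y' : HH i ↥(A ∩ B)}
    (h : Rel cls A B i x y) (h' : Rel cls A B i x' y') : Rel cls A B i (x + x') (y + y') := by
  obtain ⟨a, b, c, hz, hc, h1, h2, rfl, rfl⟩ := h
  obtain ⟨a', b', c', hz', hc', h1', h2', rfl, rfl⟩ := h'
  have e : push (i + 1) (valC A) (a + a') + push (i + 1) (valC B) (b + b') =
      (push (i + 1) (valC A) a + push (i + 1) (valC B) b) +
      (push (i + 1) (valC A) a' + push (i + 1) (valC B) b') := by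
    rw [map_add, map_add]; abel
  refine ⟨a + a', b + b', c + c', e ▸ AddSubgroup.add_mem _ hz hz', AddSubgroup.add_mem _ hc hc',
    ?_, ?_, ?_, ?_⟩
  · rw [map_add, map_add, h1, h1']
  · rw [map_add, map_add, h2, h2']; abel
  · rw [← map_add]
    congr 1
    exact Subtype.ext e
  · rw [← map_add]; rfl

theorem Rel.neg {A B : Set X} {i : ℕ} {x : HH (i + 1) X} {y : HH i ↥(A ∩ B)}
    (h : Rel cls A B i x y) : Rel cls A B i (-x) (-y) := by
  obtain ⟨a, b, c, hz, hc, h1, h2, rfl, rfl⟩ := h
  have e : push (i + 1) (valC A) (-a) + push (i + 1) (valC B) (-b) =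
      -(push (i + 1) (valC A) a + push (i + 1) (valC B) b) := by
    rw [map_neg, map_neg]; abel
  refine ⟨-a, -b, -c, e ▸ AddSubgroup.neg_mem _ hz, AddSubgroup.neg_mem _ hc, ?_, ?_, ?_, ?_⟩
  · rw [map_neg, map_neg, h1]
  · rw [map_neg, map_neg, h2]
  · rw [← map_neg]
    congr 1
    exact Subtype.ext e
  · rw [← map_neg]; rfl

variable (hker : ∀ (n : ℕ) (X : Type) [TopologicalSpace X] (c : Cyc n X),
      cls n X c = 0 ↔ (c : Ch n X) ∈ Bnd n X)
variable (hsurj : ∀ (n : ℕ) (X : Type) [TopologicalSpace X], Function.Surjective (cls n X))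
variable (hnat : ∀ (n : ℕ) (X Y : Type) [TopologicalSpace X] [TopologicalSpace Y] (f : C(X, Y))
      (c : Cyc n X), Hm n f (cls n X c) = cls n Y ⟨push n f c, push_mem_Cyc f c.2⟩)
variable (hMV2 : MV2Statement)

include hker in
theorem cls_eq {n : ℕ} {c c' : Ch n X} (hc : c ∈ Cyc n X) (hc' : c' ∈ Cyc n X)
    (h : c - c' ∈ Bnd n X) : cls n X ⟨c, hc⟩ = cls n X ⟨c', hc'⟩ := by
  rw [← sub_eq_zero, ← map_sub]
  exact (hker n X _).2 h

include hker in
theorem mem_of_cls_eq {n : ℕ} {c c' : Ch n X} (hc : c ∈ Cyc n X) (hc' : c' ∈ Cyc n X)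
    (h : cls n X ⟨c, hc⟩ = cls n X ⟨c', hc'⟩) : c - c' ∈ Bnd n X := by
  rw [← sub_eq_zero, ← map_sub] at h
  exact (hker n X _).1 h

include hker hMV2 in
theorem Rel.zero {A B : Set X} (hA : IsOpen A) (hB : IsOpen B) (hAB : A ∪ B = univ) {i : ℕ}
    {y : HH i ↥(A ∩ B)} (h : Rel cls A B i 0 y) : y = 0 := by
  obtain ⟨a, b, c, hz, hc, h1, h2, h3, rfl⟩ := h
  obtain ⟨w, hw⟩ := (hker _ _ _).1 h3
  have hsm : SmallCh A B (i + 1) (bd (i + 1) w) := ⟨a, b, hw⟩
  obtain ⟨d', y, ⟨a', b', hd'⟩, hwd⟩ := hMV2 X A B hA hB hAB (i + 1) w hsm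
  have h4 : bd (i + 1) w = bd (i + 1) d' := by rw [hwd, map_add, bd_bd, add_zero]
  have h5 : push (i + 1) (valC A) (a - bd (i + 1) a') =
      push (i + 1) (valC B) (-(b - bd (i + 1) b')) := by
    rw [hw, hd', map_add, bd_push, bd_push] at h4
    rw [map_neg, map_sub, map_sub]
    have h4' : push (i + 1) (valC A) a + push (i + 1) (valC B) b =
      push (i + 1) (valC A) (bd (i + 1) a') + push (i + 1) (valC B) (bd (i + 1) b') := h4
    rw [neg_sub, sub_eq_sub_iff_add_eq_add, h4']
    abel
  obtain ⟨e, he1, he2⟩ := exists_inter (i + 1) A B _ _ h5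
  refine (hker _ _ _).2 ⟨e, ?_⟩
  show bd i e = c
  apply push_injective i (inclC_injective inter_subset_left)
  rw [← bd_push, he1, map_sub, bd_bd, sub_zero, h1]

include hsurj hMV2 in
theorem exists_small98 {A B : Set X} (hA : IsOpen A) (hB : IsOpen B) (hAB : A ∪ B = univ) {i : ℕ}
    (hker : ∀ (n : ℕ) (X : Type) [TopologicalSpace X] (c : Cyc n X),
      cls n X c = 0 ↔ (c : Ch n X) ∈ Bnd n X) (x : HH (i + 1) X) :
    ∃ y, Rel cls A B i x y := by
  obtain ⟨⟨z, hz⟩, rfl⟩ := hsurj _ _ x
  have hsm : SmallCh A B i (bd i z) := ⟨0, 0, by rw [bd_eq_zero hz]; simp⟩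
  obtain ⟨d', y, ⟨a, b, hd'⟩, hzd⟩ := hMV2 X A B hA hB hAB i z hsm
  have hd'c : d' ∈ Cyc (i + 1) X := by
    have : bd i z = bd i d' := by rw [hzd, map_add, bd_bd, add_zero]
    show bd i d' = 0
    rw [← this]; exact hz
  have h1 : push i (valC A) (bd i a) = push i (valC B) (-bd i b) := by
    have := bd_eq_zero hd'c
    rw [hd', map_add, bd_push, bd_push] at this
    rw [map_neg]
    exact eq_neg_of_add_eq_zero_left this
  obtain ⟨c, hc1, hc2⟩ := exists_inter i A B _ _ h1
  have hcc : c ∈ Cyc i ↥(A ∩ B) := by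
    apply mem_Cyc_of_push (inclC_injective (inter_subset_left (s := A) (t := B)))
    rw [hc1]
    exact Bnd_le_Cyc i ⟨a, rfl⟩
  refine ⟨cls i _ ⟨c, hcc⟩, a, b, c, hd' ▸ hd'c, hcc, hc1.symm, ?_, ?_, rfl⟩
  · rw [hc2, neg_neg]
  · apply cls_eq hker
    rw [← hd', hzd, sub_add_cancel_left]
    exact AddSubgroup.neg_mem _ ⟨y, rfl⟩

include hker hMV2 in
theorem Rel.unique {A B : Set X} (hA : IsOpen A) (hB : IsOpen B) (hAB : A ∪ B = univ) {i : ℕ}
    {x : HH (i + 1) X} {y y' : HH i ↥(A ∩ B)} (h : Rel cls A B i x y) (h' : Rel cls A B i x y') :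
    y = y' := by
  have h1 := Rel.add h (Rel.neg h')
  rw [add_neg_cancel] at h1
  have := Rel.zero hker hMV2 hA hB hAB h1
  exact add_neg_eq_zero.1 this

end rel

open Classical in
/-- the connecting homomorphism -/
def dl {cls : ∀ (n : ℕ) (X : Type) [TopologicalSpace X], Cyc n X →+ HH n X}
    (hker : ∀ (n : ℕ) (X : Type) [TopologicalSpace X] (c : Cyc n X),
      cls n X c = 0 ↔ (c : Ch n X) ∈ Bnd n X)
    (hsurj : ∀ (n : ℕ) (X : Type) [TopologicalSpace X], Function.Surjective (cls n X))
    (hMV2 : MV2Statement) (X : Type) [TopologicalSpace X] (A B : Set X) (i : ℕ) :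
    HH (i + 1) X →+ HH i ↥(A ∩ B) :=
  if h : IsOpen A ∧ IsOpen B ∧ A ∪ B = univ then
    { toFun := fun x => (exists_small98 hsurj hMV2 h.1 h.2.1 h.2.2 hker x).choose
      map_zero' := Rel.zero hker hMV2 h.1 h.2.1 h.2.2
        (exists_small98 hsurj hMV2 h.1 h.2.1 h.2.2 hker 0).choose_spec
      map_add' := fun x x' => Rel.unique hker hMV2 h.1 h.2.1 h.2.2
        (exists_small98 hsurj hMV2 h.1 h.2.1 h.2.2 hker (x + x')).choose_spec
        (Rel.add (exists_small98 hsurj hMV2 h.1 h.2.1 h.2.2 hker x).choose_spec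
          (exists_small98 hsurj hMV2 h.1 h.2.1 h.2.2 hker x').choose_spec) }
  else 0

theorem dl_rel {cls : ∀ (n : ℕ) (X : Type) [TopologicalSpace X], Cyc n X →+ HH n X}
    (hker : ∀ (n : ℕ) (X : Type) [TopologicalSpace X] (c : Cyc n X),
      cls n X c = 0 ↔ (c : Ch n X) ∈ Bnd n X)
    (hsurj : ∀ (n : ℕ) (X : Type) [TopologicalSpace X], Function.Surjective (cls n X))
    (hMV2 : MV2Statement) {X : Type} [TopologicalSpace X] {A B : Set X} (hA : IsOpen A)
    (hB : IsOpen B) (hAB : A ∪ B = univ) (i : ℕ) (x : HH (i + 1) X) :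
    Rel cls A B i x (dl hker hsurj hMV2 X A B i x) := by
  unfold dl
  rw [dif_pos ⟨hA, hB, hAB⟩]
  exact (exists_small98 hsurj hMV2 hA hB hAB hker x).choose_spec

theorem mv3 : MV3Statement := by
  rintro ⟨cls, hsurj, hker, hnat⟩ hMV2
  refine ⟨fun X _ A B i => dl hker hsurj hMV2 X A B i, ?_, ?_⟩
  · intro X _ A B hA hB hAB
    refine ⟨?_, ?_, ?_, ?_⟩
    · -- exactness at the product
      rintro i ⟨p, q⟩
      constructor
      · intro h
        obtain ⟨⟨a, ha⟩, rfl⟩ := hsurj _ _ p
        obtain ⟨⟨b, hb⟩, rfl⟩ := hsurj _ _ q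
        have h0 : Hm i (valC A) (cls i A ⟨a, ha⟩) - Hm i (valC B) (cls i B ⟨b, hb⟩) = 0 := by
          simpa [mvDiff, sub_eq_add_neg] using h
        rw [hnat, hnat, sub_eq_zero] at h0
        obtain ⟨w, hw⟩ := mem_of_cls_eq hker _ _ h0
        have hsm : SmallCh A B i (bd i w) := ⟨a, -b, by rw [hw, map_neg, sub_eq_add_neg]⟩
        obtain ⟨d', y, ⟨a', b', hd'⟩, hwd⟩ := hMV2 X A B hA hB hAB i w hsm
        have h4 : bd i w = bd i d' := by rw [hwd, map_add, bd_bd, add_zero]
        have h5 : push i (valC A) (a - bd i a') = push i (valC B) (b + bd i b') := by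
          rw [hw, hd', map_add, bd_push, bd_push] at h4
          rw [map_sub, map_add]
          have h4' : push i (valC A) a - push i (valC B) b =
            push i (valC A) (bd i a') + push i (valC B) (bd i b') := h4
          rw [sub_eq_iff_eq_add] at h4'
          rw [h4']; abel
        obtain ⟨c, hc1, hc2⟩ := exists_inter i A B _ _ h5
        have hcc : c ∈ Cyc i ↥(A ∩ B) := by
          apply mem_Cyc_of_push (inclC_injective (inter_subset_left (s := A) (t := B)))
          rw [hc1]
          exact AddSubgroup.sub_mem _ ha (Bnd_le_Cyc i ⟨a', rfl⟩)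
        refine ⟨cls i _ ⟨c, hcc⟩, ?_⟩
        show (Hm i (inclC inter_subset_left) (cls i _ ⟨c, hcc⟩),
          Hm i (inclC inter_subset_right) (cls i _ ⟨c, hcc⟩)) = _
        rw [hnat, hnat]
        refine Prod.ext ?_ ?_
        · apply cls_eq hker
          show push i (inclC inter_subset_left) c - a ∈ Bnd i A
          rw [hc1, sub_sub_cancel_left]
          exact AddSubgroup.neg_mem _ ⟨a', rfl⟩
        · apply cls_eq hker
          show push i (inclC inter_subset_right) c - b ∈ Bnd i B
          rw [hc2, add_sub_cancel_left]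
          exact ⟨b', rfl⟩
      · rintro ⟨x, hx⟩
        obtain ⟨⟨c, hc⟩, rfl⟩ := hsurj _ _ x
        rw [← hx]
        show Hm i (valC A) (Hm i (inclC inter_subset_left) (cls i _ ⟨c, hc⟩)) +
          -Hm i (valC B) (Hm i (inclC inter_subset_right) (cls i _ ⟨c, hc⟩)) = 0
        rw [hnat, hnat, hnat, hnat, ← sub_eq_add_neg, sub_eq_zero]
        congr 1
        apply Subtype.ext
        show push i (valC A) (push i (inclC inter_subset_left) c) =
          push i (valC B) (push i (inclC inter_subset_right) c)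
        rw [push_val_incl, push_val_incl]
    · -- exactness at X
      intro i x
      have hrel := dl_rel hker hsurj hMV2 hA hB hAB i x
      constructor
      · intro h
        rw [h] at hrel
        obtain ⟨a, b, c, hz, hc, h1, h2, rfl, h3⟩ := hrel
        obtain ⟨e, he⟩ := (hker _ _ _).1 h3
        have he' : bd i e = c := he
        have ha' : a - push (i + 1) (inclC inter_subset_left) e ∈ Cyc (i + 1) A := by
          show bd i (a - push (i + 1) (inclC inter_subset_left) e) = 0
          rw [map_sub, bd_push, h1, he', sub_self]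
        have hb' : -(b + push (i + 1) (inclC inter_subset_right) e) ∈ Cyc (i + 1) B := by
          show bd i (-(b + push (i + 1) (inclC inter_subset_right) e)) = 0
          rw [map_neg, map_add, bd_push, h2, he', neg_add_cancel, neg_zero]
        refine ⟨(cls (i + 1) A ⟨_, ha'⟩, cls (i + 1) B ⟨_, hb'⟩), ?_⟩
        show Hm (i + 1) (valC A) (cls (i + 1) A ⟨_, ha'⟩) +
          -Hm (i + 1) (valC B) (cls (i + 1) B ⟨_, hb'⟩) = _
        rw [hnat, hnat, ← sub_eq_add_neg, ← map_sub]
        congr 1
        apply Subtype.ext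
        show push (i + 1) (valC A) (a - push (i + 1) (inclC inter_subset_left) e) -
          push (i + 1) (valC B) (-(b + push (i + 1) (inclC inter_subset_right) e)) = _
        rw [map_sub, map_neg, map_add, push_val_incl, push_val_incl]
        abel_nf
      · rintro ⟨⟨p, q⟩, hpq⟩
        obtain ⟨⟨a, ha⟩, rfl⟩ := hsurj _ _ p
        obtain ⟨⟨b, hb⟩, rfl⟩ := hsurj _ _ q
        have hx : Hm (i + 1) (valC A) (cls (i + 1) A ⟨a, ha⟩) +
          -Hm (i + 1) (valC B) (cls (i + 1) B ⟨b, hb⟩) = x := hpq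
        rw [hnat, hnat, ← sub_eq_add_neg, ← map_sub] at hx
        have e : push (i + 1) (valC A) a + push (i + 1) (valC B) (-b) =
            push (i + 1) (valC A) a - push (i + 1) (valC B) b := by
          rw [map_neg, sub_eq_add_neg]
        have hr : Rel cls A B i x 0 := by
          refine ⟨a, -b, 0, ?_, AddSubgroup.zero_mem _, ?_, ?_, ?_, ?_⟩
          · rw [e]
            exact AddSubgroup.sub_mem _ (push_mem_Cyc _ ha) (push_mem_Cyc _ hb)
          · rw [map_zero]; exact ha
          · rw [map_zero, neg_zero, map_neg, bd_eq_zero hb, neg_zero]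
          · rw [← hx]
            congr 1
            exact Subtype.ext e
          · exact map_zero _
        exact Rel.unique hker hMV2 hA hB hAB hrel hr
    · -- exactness at A ∩ B
      intro i y
      constructor
      · intro h
        obtain ⟨⟨c, hc⟩, rfl⟩ := hsurj _ _ y
        have h' : (Hm i (inclC inter_subset_left) (cls i _ ⟨c, hc⟩),
          Hm i (inclC inter_subset_right) (cls i _ ⟨c, hc⟩)) = 0 := h
        have h1 : Hm i (inclC inter_subset_left) (cls i _ ⟨c, hc⟩) = 0 := (Prod.ext_iff.1 h').1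
        have h2 : Hm i (inclC inter_subset_right) (cls i _ ⟨c, hc⟩) = 0 := (Prod.ext_iff.1 h').2
        rw [hnat] at h1 h2
        obtain ⟨a, ha⟩ := (hker _ _ _).1 h1
        obtain ⟨b, hb⟩ := (hker _ _ _).1 h2
        have ha' : bd i a = push i (inclC inter_subset_left) c := ha
        have hb' : bd i b = push i (inclC inter_subset_right) c := hb
        have hz : push (i + 1) (valC A) a + push (i + 1) (valC B) (-b) ∈ Cyc (i + 1) X := by
          show bd i (push (i + 1) (valC A) a + push (i + 1) (valC B) (-b)) = 0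
          rw [map_add, bd_push, bd_push, map_neg, map_neg, ha', hb', push_val_incl, push_val_incl,
            add_neg_cancel]
        refine ⟨cls (i + 1) X ⟨_, hz⟩, ?_⟩
        have hr : Rel cls A B i (cls (i + 1) X ⟨_, hz⟩) (cls i _ ⟨c, hc⟩) :=
          ⟨a, -b, c, hz, hc, ha', by rw [map_neg, hb'], rfl, rfl⟩
        exact Rel.unique hker hMV2 hA hB hAB (dl_rel hker hsurj hMV2 hA hB hAB i _) hr
      · rintro ⟨x, rfl⟩
        obtain ⟨a, b, c, hz, hc, h1, h2, _, h3⟩ := dl_rel hker hsurj hMV2 hA hB hAB i x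
        simp only
        rw [← h3]
        show (Hm i (inclC inter_subset_left) (cls i _ ⟨c, hc⟩),
          Hm i (inclC inter_subset_right) (cls i _ ⟨c, hc⟩)) = 0
        rw [hnat, hnat]
        refine Prod.ext ?_ ?_
        · exact (hker _ _ _).2 ⟨a, h1⟩
        · refine (hker _ _ _).2 ⟨-b, ?_⟩
          rw [map_neg, h2, neg_neg]
    · -- surjectivity in degree zero
      intro x
      obtain ⟨⟨z, hz⟩, rfl⟩ := hsurj _ _ x
      obtain ⟨a, b, h⟩ := zero_small A B hAB z
      refine ⟨(cls 0 A ⟨a, AddSubgroup.mem_top _⟩, cls 0 B ⟨-b, AddSubgroup.mem_top _⟩), ?_⟩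
      show Hm 0 (valC A) (cls 0 A ⟨a, _⟩) + -Hm 0 (valC B) (cls 0 B ⟨-b, _⟩) = _
      rw [hnat, hnat, ← sub_eq_add_neg, ← map_sub]
      congr 1
      apply Subtype.ext
      show push 0 (valC A) a - push 0 (valC B) (-b) = z
      rw [h, map_neg, sub_neg_eq_add]
  · -- naturality
    intro X Y _ _ A B C D hA hB hAB hC hD hCD f hfA hfB h i x
    obtain ⟨a, b, c, hz, hc, h1, h2, h3, h4⟩ := dl_rel hker hsurj hMV2 hA hB hAB i x
    have hr : Rel cls C D i (Hm (i + 1) f x) (Hm i (resC f h) (dl hker hsurj hMV2 X A B i x)) := by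
      have e : push (i + 1) (valC C) (push (i + 1) (resC f hfA) a) +
          push (i + 1) (valC D) (push (i + 1) (resC f hfB) b) =
          push (i + 1) f (push (i + 1) (valC A) a + push (i + 1) (valC B) b) := by
        rw [map_add, push_push, push_push, push_push, push_push]
        rfl
      refine ⟨push (i + 1) (resC f hfA) a, push (i + 1) (resC f hfB) b, push i (resC f h) c, ?_,
        push_mem_Cyc _ hc, ?_, ?_, ?_, ?_⟩
      · rw [e]; exact push_mem_Cyc f hz
      · rw [bd_push, h1, push_push, push_push]; rfl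
      · rw [bd_push, h2, map_neg, push_push, push_push]; rfl
      · rw [← h3, hnat]
        congr 1
        exact Subtype.ext e
      · rw [← h4, hnat]
    exact Rel.unique hker hMV2 hC hD hCD (dl_rel hker hsurj hMV2 hC hD hCD i _) hr

end Pool.Agent.S1S3
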